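import Pool.Agent.H16.Astral3

namespace Pool.Agent.Results.MP_b542c4_co.AstralRational

open Pool.Agent.H16.Astral

theorem result : ∃ m : ℕ, 2 ≤ m ∧ ∃ C : Config4 (2 * m),
    (∃ R : Realization ℝ C, IsAstral 2 m R) ∧ Nonempty (Realization ℚ C) :=
  Twelve.main

end Pool.Agent.Results.MP_b542c4_co.AstralRational
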